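import Pool.Agent.MPf322fd.Ring

set_option autoImplicit false

namespace Pool.Agent.Results.MP_f322fd_al.RegularityDoesNotDescend

/-- There are regular local rings `A`, `B` of characteristic zero, an injective finite
homomorphism `A → B` and a prime `𝔭` of `A`, with `A ⧸ 𝔭` of characteristic zero as well, such
that `B ⧸ √(𝔭 B)` is a regular local ring while `A ⧸ 𝔭` is not. -/
theorem result : ∃ (A B : Type) (_ : CommRing A) (_ : CommRing B) (_ : Algebra A B)
    (𝔭 : Ideal A), IsRegularLocalRing A ∧ IsRegularLocalRing B ∧ CharZero A ∧ CharZero B ∧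
      Function.Injective (algebraMap A B) ∧ Module.Finite A B ∧ 𝔭.IsPrime ∧
      CharZero (A ⧸ 𝔭) ∧
      IsRegularLocalRing (B ⧸ (𝔭.map (algebraMap A B)).radical) ∧
      ¬ IsRegularLocalRing (A ⧸ 𝔭) :=
  Pool.Agent.MPf322fd.main

end Pool.Agent.Results.MP_f322fd_al.RegularityDoesNotDescend
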